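import Mathlib
import Pool.Agent.H740R3.Biorth

set_option autoImplicit false

/-!
# Every nonzero separable Banach space has a convex-cyclic operator with non-convex-cyclic square

Take a biorthogonal sequence `(e n, g n)` with dense span and put
`S = 2 u (1 + ∑ k n • g n (·) e n)` with small strictly decreasing `k n > 0`, and `u = -1` for real,
`u = i` for complex scalars.  The eigenvalues of `S` have strictly decreasing absolute values, so for
`v = ∑ a n • e n` and a nonzero functional `f` the sequence `f (S ^ m v)` is dominated by one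
eigenvalue and its real part is unbounded above.  The functionals `g n` are eigenvectors of the adjoint
of `S ^ 2` with a real eigenvalue (positive in the real case), so `S ^ 2` is not convex-cyclic.
-/

namespace Pool.Agent.Results.MP_8292e8_an.EverySeparableSpace

open Filter Topology

universe u

/-- `T` is convex-cyclic: the convex hull of some orbit is dense. -/
def ConvexCyclic {𝕂 : Type} [RCLike 𝕂] {X : Type u} [NormedAddCommGroup X] [NormedSpace 𝕂 X]
    [NormedSpace ℝ X] (T : X →L[𝕂] X) : Prop :=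
  ∃ x : X, Dense (convexHull ℝ (Set.range fun n : ℕ => (T ^ n) x))

section scalars

variable (𝕂 : Type) [RCLike 𝕂]

open Classical in
/-- `-1` in the real case and `i` in the complex case -/
noncomputable def uu : 𝕂 := if (RCLike.I : 𝕂) = 0 then -1 else RCLike.I

lemma uu_cases : ((RCLike.I : 𝕂) = 0 ∧ uu 𝕂 = -1) ∨
    ((RCLike.I : 𝕂) * RCLike.I = -1 ∧ RCLike.im (RCLike.I : 𝕂) = 1 ∧ uu 𝕂 = RCLike.I) := by
  unfold uu
  by_cases h : (RCLike.I : 𝕂) = 0
  · exact Or.inl ⟨h, if_pos h⟩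
  · exact Or.inr ⟨RCLike.I_mul_I_of_nonzero h, (RCLike.I_eq_zero_or_im_I_eq_one).resolve_left h,
      if_neg h⟩

lemma uu_norm : ‖uu 𝕂‖ = 1 := by
  unfold uu
  split_ifs with h
  · simp
  · exact RCLike.norm_I_of_ne_zero h

lemma uu_four : (uu 𝕂) ^ 4 = 1 := by
  rcases uu_cases 𝕂 with ⟨-, h⟩ | ⟨h1, -, h⟩
  · rw [h]; norm_num
  · rw [h]
    have : (RCLike.I : 𝕂) ^ 4 = (RCLike.I * RCLike.I) * (RCLike.I * RCLike.I) := by ring
    rw [this, h1]
    norm_num

/-- some power of `u` rotates `b` into the right half plane -/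
lemma exists_rot {b : 𝕂} (hb : b ≠ 0) : ∃ j : ℕ, 0 < RCLike.re ((uu 𝕂) ^ j * b) := by
  rcases uu_cases 𝕂 with ⟨h0, h⟩ | ⟨h1, -, h⟩
  · rw [h]
    have hre : RCLike.re b ≠ 0 := by
      intro h2
      apply hb
      have := RCLike.re_add_im b
      rw [h0, mul_zero, add_zero, h2] at this
      rw [← this]
      simp
    rcases lt_or_gt_of_ne hre with h2 | h2
    · refine ⟨1, ?_⟩
      rw [pow_one, neg_one_mul, map_neg]
      linarith
    · refine ⟨0, ?_⟩
      simpa using h2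
  · rw [h]
    have e2 : (RCLike.I : 𝕂) ^ 2 * b = -b := by rw [pow_two, h1, neg_one_mul]
    have e3 : (RCLike.I : 𝕂) ^ 3 * b = -(RCLike.I * b) := by
      rw [pow_succ, pow_two, h1]; ring
    by_cases hre : RCLike.re b = 0
    · have him : RCLike.im b ≠ 0 := by
        intro h2
        apply hb
        apply RCLike.ext
        · simpa using hre
        · simpa using h2
      rcases lt_or_gt_of_ne him with h2 | h2
      · refine ⟨1, ?_⟩
        rw [pow_one, RCLike.I_mul_re]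
        linarith
      · refine ⟨3, ?_⟩
        rw [e3, map_neg, RCLike.I_mul_re]
        linarith
    · rcases lt_or_gt_of_ne hre with h2 | h2
      · refine ⟨2, ?_⟩
        rw [e2, map_neg]
        linarith
      · exact ⟨0, by simpa using h2⟩

variable {𝕂}

lemma growth {b : ℕ → 𝕂} (hb : Summable fun n => ‖b n‖) {n0 : ℕ} (h0 : b n0 ≠ 0)
    (hlt : ∀ n < n0, b n = 0) {r : ℕ → ℝ} (hr : ∀ n, 1 < r n) (hanti : StrictAnti r) (C : ℝ) :
    ∃ m : ℕ, C < RCLike.re ((2 * uu 𝕂) ^ m * ∑' n, b n * ((r n : ℝ) : 𝕂) ^ m) := by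
  have hr0 : 0 < r n0 := by linarith [hr n0]
  set q : ℝ := r (n0 + 1) / r n0 with hq
  have hq0 : 0 ≤ q := div_nonneg (by linarith [hr (n0 + 1)]) hr0.le
  have hq1 : q < 1 := (div_lt_one hr0).2 (hanti (Nat.lt_succ_self n0))
  let A : ℕ → 𝕂 := fun m => ∑' n, b n * ((r n / r n0 : ℝ) : 𝕂) ^ m
  have hterm : ∀ m n, ‖b n * ((r n / r n0 : ℝ) : 𝕂) ^ m‖ ≤ ‖b n‖ := by
    intro m n
    rcases lt_or_ge n n0 with h | h
    · rw [hlt n h]; simp
    · rw [norm_mul, norm_pow, RCLike.norm_ofReal, abs_of_nonneg (div_nonneg (by linarith [hr n]) hr0.le)]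
      refine mul_le_of_le_one_right (norm_nonneg _) (pow_le_one₀ (div_nonneg (by linarith [hr n]) hr0.le) ?_)
      exact (div_le_one hr0).2 (hanti.antitone h)
  have hsum : ∀ m, Summable fun n => b n * ((r n / r n0 : ℝ) : 𝕂) ^ m := fun m =>
    Summable.of_norm_bounded hb (hterm m)
  have hA : Tendsto A atTop (𝓝 (b n0)) := by
    rw [tendsto_iff_norm_sub_tendsto_zero]
    have h2 : Tendsto (fun m => q ^ m * ∑' n, ‖b n‖) atTop (𝓝 0) := by
      have := (tendsto_pow_atTop_nhds_zero_of_lt_one hq0 hq1).mul_const (∑' n, ‖b n‖)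
      simpa using this
    refine squeeze_zero (fun _ => norm_nonneg _) (fun m => ?_) h2
    have e1 : A m - b n0 = ∑' n, (if n = n0 then 0 else b n * ((r n / r n0 : ℝ) : 𝕂) ^ m) := by
      show (∑' n, b n * ((r n / r n0 : ℝ) : 𝕂) ^ m) - b n0 = _
      rw [(hsum m).tsum_eq_add_tsum_ite n0, div_self hr0.ne']
      simp
    rw [e1]
    refine tsum_of_norm_bounded (hb.hasSum.mul_left (q ^ m)) fun n => ?_
    split_ifs with h
    · rw [norm_zero]; positivity
    · rcases lt_or_ge n n0 with h1 | h1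
      · rw [hlt n h1]; simp
      · have h3 : r n / r n0 ≤ q := by
          rw [hq]
          gcongr
          exact hanti.antitone (by omega)
        have h4 : 0 ≤ r n / r n0 := div_nonneg (by linarith [hr n]) hr0.le
        rw [norm_mul, norm_pow, RCLike.norm_ofReal, abs_of_nonneg h4, mul_comm]
        gcongr
  obtain ⟨j, hj⟩ := exists_rot 𝕂 h0
  have hlim : Tendsto (fun t : ℕ => RCLike.re ((uu 𝕂) ^ j * A (4 * t + j))) atTop
      (𝓝 (RCLike.re ((uu 𝕂) ^ j * b n0))) := by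
    have h5 : Tendsto (fun t : ℕ => 4 * t + j) atTop atTop :=
      tendsto_atTop_mono (fun t => by show t ≤ 4 * t + j; omega) tendsto_id
    exact (RCLike.continuous_re.tendsto _).comp ((hA.comp h5).const_mul _)
  have hpow : Tendsto (fun t : ℕ => (2 * r n0) ^ (4 * t + j)) atTop atTop := by
    have h5 : Tendsto (fun t : ℕ => 4 * t + j) atTop atTop :=
      tendsto_atTop_mono (fun t => by show t ≤ 4 * t + j; omega) tendsto_id
    exact (tendsto_pow_atTop_atTop_of_one_lt (by linarith [hr n0])).comp h5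
  have hmul := Filter.Tendsto.atTop_mul_pos hj hpow hlim
  obtain ⟨t, ht⟩ := (hmul.eventually_gt_atTop C).exists
  refine ⟨4 * t + j, ht.trans_eq ?_⟩
  have e2 : ∑' n, b n * ((r n : ℝ) : 𝕂) ^ (4 * t + j) = ((r n0 : ℝ) : 𝕂) ^ (4 * t + j) * A (4 * t + j) := by
    show _ = _ * ∑' n, _
    rw [← tsum_mul_left]
    refine tsum_congr fun n => ?_
    have hne : ((r n0 : ℝ) : 𝕂) ≠ 0 := by
      exact_mod_cast hr0.ne'
    rw [RCLike.ofReal_div, div_pow]
    field_simp
  have e3 : (uu 𝕂) ^ (4 * t + j) = (uu 𝕂) ^ j := by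
    rw [pow_add, pow_mul, uu_four, one_pow, one_mul]
  rw [e2, mul_pow (2 : 𝕂) (uu 𝕂), e3]
  have e4 : (2 : 𝕂) ^ (4 * t + j) * (uu 𝕂) ^ j * (((r n0 : ℝ) : 𝕂) ^ (4 * t + j) * A (4 * t + j)) =
      (((2 * r n0) ^ (4 * t + j) : ℝ) : 𝕂) * ((uu 𝕂) ^ j * A (4 * t + j)) := by
    push_cast
    ring
  rw [e4, RCLike.re_ofReal_mul]

end scalars

/-- **Every nonzero separable Banach space, real or complex, has a convex-cyclic operator whose
square is not convex-cyclic.** -/
theorem result (𝕂 : Type) [RCLike 𝕂] (X : Type u) [NormedAddCommGroup X] [NormedSpace 𝕂 X]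
    [NormedSpace ℝ X] [IsScalarTower ℝ 𝕂 X] [CompleteSpace X]
    [TopologicalSpace.SeparableSpace X] [Nontrivial X] :
    ∃ S : X →L[𝕂] X, ConvexCyclic S ∧ ¬ ConvexCyclic (S ^ 2) := by
  obtain ⟨e, g, hbi, hg, hd⟩ := Pool.Agent.H740R3.Biorth.exists_biorth 𝕂 X
  -- the weights
  let k : ℕ → ℝ := fun n => ∏ i ∈ Finset.range (n + 1), 1 / (2 * (1 + ‖g i‖ * ‖e i‖))
  have hk0 : ∀ n, 0 < k n := fun n => Finset.prod_pos fun i _ => by positivity
  have hks : ∀ n, k (n + 1) = k n * (1 / (2 * (1 + ‖g (n + 1)‖ * ‖e (n + 1)‖))) := fun n =>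
    Finset.prod_range_succ _ _
  have hfac : ∀ i, 1 / (2 * (1 + ‖g i‖ * ‖e i‖)) ≤ (1 / 2 : ℝ) := by
    intro i
    apply one_div_le_one_div_of_le (by norm_num)
    have : 0 ≤ ‖g i‖ * ‖e i‖ := by positivity
    linarith
  have hanti : StrictAnti k := strictAnti_nat_of_succ_lt fun n => by
    rw [hks]
    have := hfac (n + 1)
    have h2 := hk0 n
    nlinarith
  have hkle : ∀ n, k n ≤ (1 / 2) ^ n * (1 / (2 * (1 + ‖g n‖ * ‖e n‖))) := by
    intro n
    show ∏ i ∈ Finset.range (n + 1), _ ≤ _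
    rw [Finset.prod_range_succ]
    gcongr
    calc ∏ i ∈ Finset.range n, 1 / (2 * (1 + ‖g i‖ * ‖e i‖)) ≤ ∏ _i ∈ Finset.range n, (1 / 2 : ℝ) :=
          Finset.prod_le_prod (fun i _ => by positivity) fun i _ => hfac i
      _ = _ := by simp
  have hkn : ∀ n, k n * (‖g n‖ * ‖e n‖) ≤ (1 / 2) ^ n := by
    intro n
    have h1 := hkle n
    have h2 : 0 ≤ ‖g n‖ * ‖e n‖ := by positivity
    calc k n * (‖g n‖ * ‖e n‖) ≤ (1 / 2) ^ n * (1 / (2 * (1 + ‖g n‖ * ‖e n‖))) * (‖g n‖ * ‖e n‖) := by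
          gcongr
      _ = (1 / 2) ^ n * ((‖g n‖ * ‖e n‖) / (2 * (1 + ‖g n‖ * ‖e n‖))) := by ring
      _ ≤ (1 / 2) ^ n * 1 := by
          gcongr
          rw [div_le_one (by positivity)]
          linarith
      _ = _ := mul_one _
  have hgeo : Summable fun n : ℕ => (1 / 2 : ℝ) ^ n := summable_geometric_two
  -- the operator
  have hKs : Summable fun n => ((k n : ℝ) : 𝕂) • (g n).smulRight (e n) := by
    refine Summable.of_norm_bounded hgeo fun n => ?_
    rw [norm_smul, RCLike.norm_ofReal, abs_of_pos (hk0 n), ContinuousLinearMap.norm_smulRight_apply]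
    exact hkn n
  let K : X →L[𝕂] X := ∑' n, ((k n : ℝ) : 𝕂) • (g n).smulRight (e n)
  have hKx : ∀ x, HasSum (fun n => ((k n : ℝ) : 𝕂) • (g n x • e n)) (K x) := by
    intro x
    have := (ContinuousLinearMap.apply 𝕂 X x).hasSum hKs.hasSum
    exact this
  have hge : ∀ n, g n (e n) • e n = e n := by
    intro n
    rcases hg n with h | ⟨h, -⟩
    · rw [h, one_smul]
    · rw [h, smul_zero]
  have hKe : ∀ m, K (e m) = ((k m : ℝ) : 𝕂) • e m := by
    intro m
    have h1 := hKx (e m)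
    have h2 : HasSum (fun n => ((k n : ℝ) : 𝕂) • (g n (e m) • e n)) (((k m : ℝ) : 𝕂) • (g m (e m) • e m)) := by
      refine hasSum_single m fun n hn => ?_
      rw [hbi n m hn, zero_smul, smul_zero]
    rw [h1.unique h2, hge]
  have hgK : ∀ n x, g n (K x) = ((k n : ℝ) : 𝕂) * g n x := by
    intro n x
    have h1 := (g n).hasSum (hKx x)
    have h2 : HasSum (fun m => g n (((k m : ℝ) : 𝕂) • (g m x • e m))) (g n (((k n : ℝ) : 𝕂) • (g n x • e n))) := by
      refine hasSum_single n fun m hm => ?_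
      rw [map_smul, map_smul, hbi n m (Ne.symm hm), smul_zero, smul_zero]
    rw [h1.unique h2, map_smul, map_smul, smul_eq_mul, smul_eq_mul]
    rcases hg n with h | ⟨-, h⟩
    · rw [h, mul_one]
    · simp [h]
  let S : X →L[𝕂] X := (2 * uu 𝕂) • (1 + K)
  let r : ℕ → ℝ := fun n => 1 + k n
  have hSe : ∀ n, S (e n) = (2 * uu 𝕂 * ((r n : ℝ) : 𝕂)) • e n := by
    intro n
    show (2 * uu 𝕂) • (e n + K (e n)) = _
    rw [hKe]
    show (2 * uu 𝕂) • (e n + ((k n : ℝ) : 𝕂) • e n) = (2 * uu 𝕂 * ((1 + k n : ℝ) : 𝕂)) • e n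
    have h1 : e n + ((k n : ℝ) : 𝕂) • e n = ((1 + k n : ℝ) : 𝕂) • e n := by
      push_cast
      rw [add_smul, one_smul]
    rw [h1, smul_smul]
  have hSpe : ∀ m n, (S ^ m) (e n) = (2 * uu 𝕂 * ((r n : ℝ) : 𝕂)) ^ m • e n := by
    intro m n
    induction m with
    | zero => simp
    | succ m ih =>
      rw [pow_succ']
      show S ((S ^ m) (e n)) = _
      rw [ih, map_smul, hSe, smul_smul, ← pow_succ]
  have hgS : ∀ n x, g n (S x) = (2 * uu 𝕂 * ((r n : ℝ) : 𝕂)) * g n x := by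
    intro n x
    show g n ((2 * uu 𝕂) • (x + K x)) = _
    rw [map_smul, map_add, hgK]
    show (2 * uu 𝕂) * (g n x + ((k n : ℝ) : 𝕂) * g n x) = (2 * uu 𝕂 * ((1 + k n : ℝ) : 𝕂)) * g n x
    push_cast
    ring
  refine ⟨S, ?_, ?_⟩
  · -- convex-cyclic
    let a : ℕ → ℝ := fun n => (1 / 2) ^ n / (1 + ‖e n‖)
    have ha0 : ∀ n, 0 < a n := fun n => by positivity
    have has : Summable fun n => ((a n : ℝ) : 𝕂) • e n := by
      refine Summable.of_norm_bounded hgeo fun n => ?_
      rw [norm_smul, RCLike.norm_ofReal, abs_of_pos (ha0 n)]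
      show (1 / 2) ^ n / (1 + ‖e n‖) * ‖e n‖ ≤ _
      rw [div_mul_eq_mul_div, div_le_iff₀ (by positivity)]
      have : 0 ≤ (1 / 2 : ℝ) ^ n := by positivity
      nlinarith
    refine ⟨∑' n, ((a n : ℝ) : 𝕂) • e n, ?_⟩
    by_contra hnd
    obtain ⟨y, hy⟩ : ∃ y, y ∉ closure (convexHull ℝ (Set.range fun n : ℕ =>
        (S ^ n) (∑' n, ((a n : ℝ) : 𝕂) • e n))) := by
      by_contra h
      push Not at h
      exact hnd h
    obtain ⟨f, c, hf1, hf2⟩ := RCLike.geometric_hahn_banach_closed_point (𝕜 := 𝕂)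
      (convex_convexHull ℝ _).closure isClosed_closure hy
    have horb : ∀ m : ℕ, RCLike.re (f ((S ^ m) (∑' n, ((a n : ℝ) : 𝕂) • e n))) < c := fun m =>
      hf1 _ (subset_closure (subset_convexHull ℝ _ ⟨m, rfl⟩))
    have hfne : ∃ n, f (e n) ≠ 0 := by
      by_contra h
      push Not at h
      have hf0 : f = 0 := by
        refine ContinuousLinearMap.ext_on hd ?_
        rintro _ ⟨n, rfl⟩
        exact h n
      have h1 := horb 0
      rw [hf0] at h1 hf2
      simp at h1 hf2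
      linarith
    classical
    let b : ℕ → 𝕂 := fun n => ((a n : ℝ) : 𝕂) * f (e n)
    have hbs : Summable fun n => ‖b n‖ := by
      refine Summable.of_nonneg_of_le (fun n => norm_nonneg _) (fun n => ?_) (hgeo.mul_left ‖f‖)
      show ‖((a n : ℝ) : 𝕂) * f (e n)‖ ≤ _
      rw [norm_mul, RCLike.norm_ofReal, abs_of_pos (ha0 n)]
      have h1 := f.le_opNorm (e n)
      have h2 : a n * (1 + ‖e n‖) = (1 / 2) ^ n := by
        show (1 / 2) ^ n / (1 + ‖e n‖) * (1 + ‖e n‖) = _
        field_simp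
      have h3 := ha0 n
      have h4 : 0 ≤ ‖f‖ := norm_nonneg _
      calc a n * ‖f (e n)‖ ≤ a n * (‖f‖ * ‖e n‖) := by gcongr
        _ ≤ a n * (‖f‖ * (1 + ‖e n‖)) := by gcongr; linarith
        _ = ‖f‖ * (a n * (1 + ‖e n‖)) := by ring
        _ = _ := by rw [h2]
    have hne : b (Nat.find hfne) ≠ 0 := by
      have h1 := Nat.find_spec hfne
      have h2 : ((a (Nat.find hfne) : ℝ) : 𝕂) ≠ 0 := by exact_mod_cast (ha0 _).ne'
      exact mul_ne_zero h2 h1
    have hlt : ∀ n < Nat.find hfne, b n = 0 := by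
      intro n hn
      have h1 := Nat.find_min hfne hn
      push Not at h1
      show _ * f (e n) = 0
      rw [h1, mul_zero]
    obtain ⟨m, hm⟩ := growth hbs hne hlt (r := r) (fun n => by
      show 1 < 1 + k n
      linarith [hk0 n]) (fun i j hij => by
      show 1 + k j < 1 + k i
      linarith [hanti hij]) c
    have h5 : f ((S ^ m) (∑' n, ((a n : ℝ) : 𝕂) • e n)) =
        (2 * uu 𝕂) ^ m * ∑' n, b n * ((r n : ℝ) : 𝕂) ^ m := by
      have h6 := (f.comp (S ^ m)).hasSum has.hasSum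
      have h7 : f ((S ^ m) (∑' n, ((a n : ℝ) : 𝕂) • e n)) =
        ∑' n, (f.comp (S ^ m)) (((a n : ℝ) : 𝕂) • e n) := h6.tsum_eq.symm
      rw [h7, ← tsum_mul_left]
      refine tsum_congr fun n => ?_
      rw [map_smul, ContinuousLinearMap.comp_apply, hSpe, map_smul, smul_eq_mul, smul_eq_mul]
      show _ = _ * (((a n : ℝ) : 𝕂) * f (e n) * _)
      ring
    have h8 := horb m
    rw [h5] at h8
    exact lt_asymm h8 hm
  · -- the square is not convex-cyclic
    rintro ⟨x, hx⟩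
    obtain ⟨n, hn⟩ : ∃ n, g n (e n) = 1 := by
      by_contra h
      push Not at h
      have h1 : ∀ n, e n = 0 := fun n => ((hg n).resolve_left (h n)).1
      have h2 : (Submodule.span 𝕂 (Set.range e) : Set X) = {0} := by
        have : Set.range e ⊆ {0} := by
          rintro _ ⟨n, rfl⟩
          exact h1 n
        rw [Submodule.span_eq_bot.2 fun z hz => this hz]
        rfl
      rw [h2] at hd
      obtain ⟨z, hz⟩ := exists_ne (0 : X)
      have := hd.closure_eq
      rw [isClosed_singleton.closure_eq] at this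
      have h3 : z ∈ ({0} : Set X) := by rw [this]; trivial
      exact hz h3
    set φ := g n with hφ
    -- squares
    obtain ⟨ε, hε, hε2⟩ : ∃ ε : ℝ, (uu 𝕂) ^ 2 = ((ε : ℝ) : 𝕂) ∧ (((RCLike.I : 𝕂) = 0 ∧ ε = 1) ∨
        (RCLike.im (RCLike.I : 𝕂) = 1 ∧ ε = -1)) := by
      rcases uu_cases 𝕂 with ⟨h0, h⟩ | ⟨h1, h2, h⟩
      · exact ⟨1, by rw [h]; simp, Or.inl ⟨h0, rfl⟩⟩
      · exact ⟨-1, by rw [h, pow_two, h1]; simp, Or.inr ⟨h2, rfl⟩⟩
    have hφS : ∀ m : ℕ, φ (((S ^ 2) ^ m) x) = (((ε * (4 * r n ^ 2)) ^ m : ℝ) : 𝕂) * φ x := by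
      intro m
      induction m with
      | zero => simp
      | succ m ih =>
        rw [pow_succ']
        have h1 : ((S ^ 2) * (S ^ 2) ^ m) x = S (S (((S ^ 2) ^ m) x)) := rfl
        rw [h1, hgS, hgS, ih]
        have h2 : (2 * uu 𝕂 * ((r n : ℝ) : 𝕂)) * ((2 * uu 𝕂 * ((r n : ℝ) : 𝕂)) *
          ((((ε * (4 * r n ^ 2)) ^ m : ℝ) : 𝕂) * φ x)) =
          (uu 𝕂) ^ 2 * (4 * ((r n : ℝ) : 𝕂) ^ 2) * ((((ε * (4 * r n ^ 2)) ^ m : ℝ) : 𝕂) * φ x) := by
          ring
        rw [h2, hε]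
        push_cast
        ring
    -- a real functional that is bounded below on the hull is nonnegative
    have key : ∀ ψ : X →ₗ[ℝ] ℝ, Continuous ψ → (∀ m : ℕ, 0 ≤ ψ (((S ^ 2) ^ m) x)) → ∀ z, 0 ≤ ψ z := by
      intro ψ hψ h z
      have hcl : IsClosed {z : X | 0 ≤ ψ z} := isClosed_le continuous_const hψ
      have hcv : Convex ℝ {z : X | 0 ≤ ψ z} := convex_halfSpace_ge (LinearMap.isLinear ψ) 0
      have hsub : convexHull ℝ (Set.range fun m : ℕ => ((S ^ 2) ^ m) x) ⊆ {z : X | 0 ≤ ψ z} := by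
        refine convexHull_min ?_ hcv
        rintro _ ⟨m, rfl⟩
        exact h m
      exact closure_minimal hsub hcl (hx z)
    have hreal : ∀ (t : ℝ) (z : X), φ (t • z) = ((t : ℝ) : 𝕂) * φ z := by
      intro t z
      have h1 : t • z = ((t : ℝ) : 𝕂) • z := by
        rw [RCLike.ofReal_alg, smul_assoc, one_smul]
      rw [h1, map_smul, smul_eq_mul]
    let L : 𝕂 → X →ₗ[ℝ] ℝ := fun c =>
      { toFun := fun z => RCLike.re (c * φ z)
        map_add' := fun z w => by rw [map_add, mul_add, map_add]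
        map_smul' := fun t z => by
          rw [hreal, RingHom.id_apply, smul_eq_mul, mul_left_comm, RCLike.re_ofReal_mul] }
    have hLc : ∀ c, Continuous (L c) := fun c =>
      RCLike.continuous_re.comp (continuous_const.mul φ.continuous)
    have hLa : ∀ c z, L c z = RCLike.re (c * φ z) := fun _ _ => rfl
    have hzero : φ x ≠ 0 := by
      intro h0
      have h1 := key (L 1) (hLc 1) (fun m => by rw [hLa, hφS, h0]; simp)
      have h2 := h1 (-(e n))
      rw [hLa, map_neg, hn] at h2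
      simp at h2
      linarith
    have hpos : 0 < ‖φ x‖ ^ 2 := by positivity
    rcases hε2 with ⟨hI, hε1⟩ | ⟨hI, hε1⟩
    · have h1 := key (L ((starRingEnd 𝕂) (φ x))) (hLc _) (fun m => by
        rw [hLa, hφS, mul_left_comm, RCLike.re_ofReal_mul, RCLike.conj_mul]
        rw [hε1, ← RCLike.ofReal_pow, RCLike.ofReal_re]
        positivity)
      have h2 := h1 (-x)
      rw [hLa, map_neg, mul_neg, RCLike.conj_mul, map_neg, ← RCLike.ofReal_pow, RCLike.ofReal_re] at h2
      linarith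
    · have h1 := key (L (RCLike.I * (starRingEnd 𝕂) (φ x))) (hLc _) (fun m => by
        rw [hLa, hφS, mul_left_comm, RCLike.re_ofReal_mul, mul_assoc, RCLike.conj_mul,
          RCLike.I_mul_re, ← RCLike.ofReal_pow, RCLike.ofReal_im]
        simp)
      have h2 := h1 ((RCLike.I : 𝕂) • x)
      rw [hLa, map_smul, smul_eq_mul] at h2
      have h3 : RCLike.I * (starRingEnd 𝕂) (φ x) * (RCLike.I * φ x) =
          (RCLike.I * RCLike.I) * ((starRingEnd 𝕂) (φ x) * φ x) := by ring
      have h4 : (RCLike.I : 𝕂) * RCLike.I = -1 := by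
        apply RCLike.I_mul_I_of_nonzero
        intro h
        rw [h] at hI
        simp at hI
      rw [h3, h4, RCLike.conj_mul, neg_one_mul, map_neg, ← RCLike.ofReal_pow, RCLike.ofReal_re] at h2
      linarith

end Pool.Agent.Results.MP_8292e8_an.EverySeparableSpace
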